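import Pool.Agent.FGT.Stmts

/-!
Row OPC of the squad FGT (helper28).
-/

namespace Pool.Agent.FGT.H28

open Filter Topology Pool.Agent.FGT

section

variable {H : Type} [NormedAddCommGroup H] [InnerProductSpace ℝ H] {Λ : Type}

theorem absJ {J : (Λ → ℝ) → ℝ}
    (hadd : ∀ f g, Bdd f → Bdd g → J (f + g) = J f + J g)
    (hsmul : ∀ (c : ℝ) f, Bdd f → J (c • f) = c * J f)
    (hpos : ∀ f, Bdd f → (∀ x, 0 ≤ f x) → 0 ≤ J f) {f : Λ → ℝ} {C : ℝ} (hC : ∀ x, |f x| ≤ C) :
    |J f| ≤ C * J (fun _ => 1) := by
  have hf : Bdd f := ⟨C, hC⟩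
  have h1 : Bdd (fun _ : Λ => (1 : ℝ)) := ⟨1, fun _ => by simp⟩
  have hC1 : Bdd (C • fun _ : Λ => (1 : ℝ)) := h1.smul C
  have e1 : 0 ≤ J ((C • fun _ : Λ => (1 : ℝ)) + f) := by
    refine hpos _ (hC1.add hf) fun x => ?_
    have := (abs_le.mp (hC x)).1
    simp only [Pi.add_apply, Pi.smul_apply, smul_eq_mul, mul_one]
    linarith
  have e2 : 0 ≤ J ((C • fun _ : Λ => (1 : ℝ)) + (-1 : ℝ) • f) := by
    refine hpos _ (hC1.add (hf.smul _)) fun x => ?_
    have := (abs_le.mp (hC x)).2
    simp only [Pi.add_apply, Pi.smul_apply, smul_eq_mul, mul_one]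
    linarith
  rw [hadd _ _ hC1 hf, hsmul _ _ h1] at e1
  rw [hadd _ _ hC1 (hf.smul _), hsmul _ _ h1, hsmul _ _ hf] at e2
  rw [abs_le]
  constructor <;> linarith

end

theorem opc : OpcStmt := by
  intro H _ _ _ Λ ξ D hD htb J hadd hsmul hpos
  set r : ℝ := Real.sqrt (max D 0) with hrdef
  have hr0 : 0 ≤ r := Real.sqrt_nonneg _
  have hr : ∀ x, ‖ξ x‖ ≤ r := by
    intro x
    apply Real.le_sqrt_of_sq_le
    have := hD x
    rw [real_inner_self_eq_norm_sq] at this
    exact this.trans (le_max_left _ _)
  have hin : ∀ v x, |inner ℝ (ξ x) v| ≤ r * ‖v‖ := fun v x =>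
    (abs_real_inner_le_norm _ _).trans (mul_le_mul_of_nonneg_right (hr x) (norm_nonneg _))
  have hBd : ∀ v, Bdd (fun x => inner ℝ (ξ x) v) := fun v => ⟨r * ‖v‖, hin v⟩
  have hB : ∀ v w, Bdd (fun x => inner ℝ (ξ x) v * inner ℝ (ξ x) w) := fun v w =>
    (hBd v).mul (hBd w)
  set j1 : ℝ := J (fun _ => 1) with hj1
  have hj0 : 0 ≤ j1 := hpos _ ⟨1, fun _ => by simp⟩ fun _ => zero_le_one
  have hBb : ∀ v w, |J (fun x => inner ℝ (ξ x) v * inner ℝ (ξ x) w)| ≤
      r * ‖v‖ * (r * ‖w‖) * j1 := by
    intro v w
    refine absJ hadd hsmul hpos fun x => ?_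
    rw [abs_mul]
    exact mul_le_mul (hin v x) (hin w x) (abs_nonneg _) (by positivity)
  -- the bilinear form
  let φ : H → (H →L[ℝ] ℝ) := fun v =>
    LinearMap.mkContinuous
      { toFun := fun w => J (fun x => inner ℝ (ξ x) v * inner ℝ (ξ x) w)
        map_add' := by
          intro w w'
          rw [← hadd _ _ (hB v w) (hB v w')]
          congr 1
          funext x
          simp only [Pi.add_apply, inner_add_right]
          ring
        map_smul' := by
          intro c w
          rw [RingHom.id_apply, smul_eq_mul, ← hsmul _ _ (hB v w)]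
          congr 1
          funext x
          simp only [Pi.smul_apply, smul_eq_mul, inner_smul_right]
          ring } (r * ‖v‖ * r * j1) (by
        intro w
        rw [Real.norm_eq_abs]
        refine (hBb v w).trans (le_of_eq ?_)
        ring)
  have hφ : ∀ v w, φ v w = J (fun x => inner ℝ (ξ x) v * inner ℝ (ξ x) w) := fun v w => rfl
  have hφn : ∀ v, ‖φ v‖ ≤ r * r * j1 * ‖v‖ := by
    intro v
    refine (LinearMap.mkContinuous_norm_le _ (by positivity) _).trans (le_of_eq ?_)
    ring
  let A : H →L[ℝ] H :=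
    LinearMap.mkContinuous
      { toFun := fun v => (InnerProductSpace.toDual ℝ H).symm (φ v)
        map_add' := by
          intro v v'
          rw [← map_add]
          congr 1
          ext w
          rw [_root_.add_apply, hφ, hφ, hφ, ← hadd _ _ (hB v w) (hB v' w)]
          congr 1
          funext x
          simp only [Pi.add_apply, inner_add_right]
          ring
        map_smul' := by
          intro c v
          rw [RingHom.id_apply]
          have : φ (c • v) = c • φ v := by
            ext w
            rw [_root_.smul_apply, hφ, hφ, smul_eq_mul, ← hsmul _ _ (hB v w)]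
            congr 1
            funext x
            simp only [Pi.smul_apply, smul_eq_mul, inner_smul_right]
            ring
          rw [this]
          simp } (r * r * j1) (by
        intro v
        change ‖(InnerProductSpace.toDual ℝ H).symm (φ v)‖ ≤ _
        rw [LinearIsometryEquiv.norm_map]
        exact hφn v)
  have hA : ∀ v w, inner ℝ (A v) w = J (fun x => inner ℝ (ξ x) v * inner ℝ (ξ x) w) := by
    intro v w
    change inner ℝ ((InnerProductSpace.toDual ℝ H).symm (φ v)) w = _
    rw [InnerProductSpace.toDual_symm_apply, hφ]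
  refine ⟨A, ?_, hA⟩
  -- compactness
  set K : Set H := closure (convexHull ℝ
    ((fun p : ℝ × H => p.1 • p.2) '' (Set.Icc (-(r * j1)) (r * j1) ×ˢ closure (Set.range ξ))))
    with hK
  have hcr : IsCompact (closure (Set.range ξ)) :=
    htb.closure.isCompact_of_isClosed isClosed_closure
  have hS : IsCompact ((fun p : ℝ × H => p.1 • p.2) ''
      (Set.Icc (-(r * j1)) (r * j1) ×ˢ closure (Set.range ξ))) :=
    (isCompact_Icc.prod hcr).image (by fun_prop)
  have hKc : IsCompact K := by
    exact (totallyBounded_convexHull.mpr hS.totallyBounded).closure.isCompact_of_isClosed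
      isClosed_closure
  rcases isEmpty_or_nonempty Λ with hΛ | hΛ
  · -- trivial case
    have hA0 : A = 0 := by
      ext1 v
      refine ext_inner_right ℝ fun w => ?_
      rw [hA, _root_.zero_apply, inner_zero_left]
      have h0 := hsmul 0 (fun x => inner ℝ (ξ x) v * inner ℝ (ξ x) w) (hB v w)
      rw [zero_mul] at h0
      rw [← h0]
      congr 1
      funext x
      exact (hΛ.false x).elim
    rw [hA0]
    exact isCompactOperator_zero
  have hmem : ∀ v : H, ‖v‖ ≤ 1 → A v ∈ K := by
    intro v hv
    by_contra hn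
    obtain ⟨f, u, h1, h2⟩ := geometric_hahn_banach_closed_point
      ((convex_convexHull ℝ _).closure) isClosed_closure hn
    -- represent f
    obtain ⟨w, rfl⟩ := (InnerProductSpace.toDual ℝ H).surjective f
    have hu : ∀ x, r * j1 * |inner ℝ (ξ x) w| < u := by
      intro x
      have hmem1 : ∀ t ∈ Set.Icc (-(r * j1)) (r * j1), t • ξ x ∈ K := by
        intro t ht
        refine subset_closure (subset_convexHull ℝ _ ?_)
        exact ⟨(t, ξ x), ⟨ht, subset_closure ⟨x, rfl⟩⟩, rfl⟩
      have hrj : 0 ≤ r * j1 := mul_nonneg hr0 hj0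
      rcases abs_cases (inner ℝ (ξ x) w) with ⟨ha, _⟩ | ⟨ha, _⟩
      · have := h1 _ (hmem1 (r * j1) ⟨by linarith, le_rfl⟩)
        rw [InnerProductSpace.toDual_apply_apply, inner_smul_right, real_inner_comm] at this
        rw [ha]
        exact this
      · have := h1 _ (hmem1 (-(r * j1)) ⟨le_rfl, by linarith⟩)
        rw [InnerProductSpace.toDual_apply_apply, inner_smul_right, real_inner_comm] at this
        rw [ha]
        linarith
    have hlt : inner ℝ (A v) w ≤ u := by
      rw [hA]
      have hle : ∀ x, |inner ℝ (ξ x) v * inner ℝ (ξ x) w| ≤ r * |inner ℝ (ξ x) w| := by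
        intro x
        rw [abs_mul]
        refine mul_le_mul_of_nonneg_right ((hin v x).trans ?_) (abs_nonneg _)
        calc r * ‖v‖ ≤ r * 1 := mul_le_mul_of_nonneg_left hv hr0
          _ = r := mul_one r
      by_cases hj : j1 = 0
      · have := hBb v w
        rw [hj, mul_zero] at this
        have h3 : J (fun x => inner ℝ (ξ x) v * inner ℝ (ξ x) w) = 0 :=
          abs_eq_zero.mp (le_antisymm this (abs_nonneg _))
        rw [h3]
        have := hu (Classical.arbitrary Λ)
        rw [hj, mul_zero, zero_mul] at this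
        exact this.le
      · have hjp : 0 < j1 := lt_of_le_of_ne hj0 (Ne.symm hj)
        have h4 : |J (fun x => inner ℝ (ξ x) v * inner ℝ (ξ x) w)| ≤ (u / j1) * j1 := by
          refine absJ hadd hsmul hpos fun x => (hle x).trans ?_
          rw [le_div_iff₀ hjp]
          have := (hu x).le
          calc r * |inner ℝ (ξ x) w| * j1 = r * j1 * |inner ℝ (ξ x) w| := by ring
            _ ≤ u := this
        rw [div_mul_cancel₀ _ hj] at h4
        exact (le_abs_self _).trans h4
    rw [InnerProductSpace.toDual_apply_apply, real_inner_comm] at h2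
    exact absurd hlt (not_le.mpr h2)
  refine ⟨K, hKc, ?_⟩
  refine Filter.mem_of_superset (Metric.closedBall_mem_nhds (0 : H) one_pos) ?_
  intro v hv
  refine hmem v ?_
  rwa [mem_closedBall_zero_iff] at hv

end Pool.Agent.FGT.H28
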