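import Pool.Agent.FGT.Stmts

/-!
Row GNS of the squad FGT (helper28): the Hilbert space of an invariant positive semidefinite kernel.
-/

namespace Pool.Agent.FGT.H28

open Filter Topology Pool.Agent.FGT

/-- a positive semidefinite symmetric kernel -/
structure Ker (Λ : Type) where
  k : Λ → Λ → ℝ
  symm : ∀ x y, k x y = k y x
  pos : ∀ (s : Finset Λ) (c : Λ → ℝ), 0 ≤ ∑ i ∈ s, ∑ j ∈ s, c i * c j * k i j

variable {Λ : Type}

/-- the bilinear form -/
noncomputable def ip (K : Ker Λ) (f g : Λ →₀ ℝ) : ℝ :=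
  f.sum fun x a => g.sum fun y b => a * b * K.k x y

theorem ip_add_left (K : Ker Λ) (f f' g : Λ →₀ ℝ) : ip K (f + f') g = ip K f g + ip K f' g := by
  unfold ip
  rw [Finsupp.sum_add_index']
  · intro x
    simp
  · intro x a b
    rw [← Finsupp.sum_add]
    refine Finsupp.sum_congr fun y _ => ?_
    ring

theorem ip_smul_left (K : Ker Λ) (c : ℝ) (f g : Λ →₀ ℝ) : ip K (c • f) g = c * ip K f g := by
  unfold ip
  rw [Finsupp.sum_smul_index (fun i => by simp), Finsupp.mul_sum]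
  refine Finsupp.sum_congr fun x _ => ?_
  rw [Finsupp.mul_sum]
  refine Finsupp.sum_congr fun y _ => ?_
  ring

theorem ip_symm (K : Ker Λ) (f g : Λ →₀ ℝ) : ip K f g = ip K g f := by
  unfold ip
  rw [Finsupp.sum_comm]
  refine Finsupp.sum_congr fun x _ => ?_
  refine Finsupp.sum_congr fun y _ => ?_
  rw [K.symm]
  ring

theorem ip_self (K : Ker Λ) (f : Λ →₀ ℝ) : 0 ≤ ip K f f := by
  unfold ip
  exact K.pos f.support fun i => f i

theorem ip_single (K : Ker Λ) (x y : Λ) :
    ip K (Finsupp.single x 1) (Finsupp.single y 1) = K.k x y := by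
  unfold ip
  rw [Finsupp.sum_single_index, Finsupp.sum_single_index]
  · ring
  · ring
  · simp

theorem ip_map (K : Ker Λ) (σ : Λ → Λ) (hσ : ∀ x y, K.k (σ x) (σ y) = K.k x y)
    (f g : Λ →₀ ℝ) : ip K (f.mapDomain σ) (g.mapDomain σ) = ip K f g := by
  unfold ip
  rw [Finsupp.sum_mapDomain_index (fun i => by simp) (fun i a b => by
    rw [← Finsupp.sum_add]
    refine Finsupp.sum_congr fun y _ => ?_
    ring)]
  refine Finsupp.sum_congr fun x _ => ?_
  rw [Finsupp.sum_mapDomain_index (fun i => by simp) (fun i a b => by ring)]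
  refine Finsupp.sum_congr fun y _ => ?_
  rw [hσ]

/-- the pre-Hilbert space -/
def Pre (_K : Ker Λ) : Type := Λ →₀ ℝ

/-- conversion -/
def toP (K : Ker Λ) (f : Λ →₀ ℝ) : Pre K := f

/-- conversion -/
def ofP {K : Ker Λ} (f : Pre K) : Λ →₀ ℝ := f

noncomputable instance (K : Ker Λ) : AddCommGroup (Pre K) :=
  inferInstanceAs (AddCommGroup (Λ →₀ ℝ))

noncomputable instance (K : Ker Λ) : Module ℝ (Pre K) :=
  inferInstanceAs (Module ℝ (Λ →₀ ℝ))

noncomputable instance preCore (K : Ker Λ) : PreInnerProductSpace.Core ℝ (Pre K) where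
  inner f g := ip K (ofP f) (ofP g)
  conj_inner_symm f g := by
    show (starRingEnd ℝ) (ip K (ofP g) (ofP f)) = ip K (ofP f) (ofP g)
    rw [ip_symm K (ofP g) (ofP f)]
    simp
  add_left f g h := ip_add_left K (ofP f) (ofP g) (ofP h)
  smul_left f g c := by
    show ip K (c • ofP f) (ofP g) = (starRingEnd ℝ) c * ip K (ofP f) (ofP g)
    rw [ip_smul_left]
    simp
  re_inner_nonneg f := by
    show 0 ≤ RCLike.re (ip K (ofP f) (ofP f))
    simpa using ip_self K (ofP f)

noncomputable instance (K : Ker Λ) : SeminormedAddCommGroup (Pre K) :=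
  InnerProductSpace.Core.toSeminormedAddCommGroup (𝕜 := ℝ)

noncomputable instance (K : Ker Λ) : InnerProductSpace ℝ (Pre K) := .ofCore _

theorem inner_pre (K : Ker Λ) (f g : Pre K) : inner ℝ f g = ip K (ofP f) (ofP g) := rfl

/-- the Hilbert space -/
abbrev Hil (K : Ker Λ) : Type := UniformSpace.Completion (Pre K)

/-- the embedding -/
noncomputable def em (K : Ker Λ) (f : Λ →₀ ℝ) : Hil K := ((toP K f : Pre K) : Hil K)

theorem em_zero (K : Ker Λ) : em K 0 = 0 := UniformSpace.Completion.coe_zero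

theorem em_add (K : Ker Λ) (f g : Λ →₀ ℝ) : em K (f + g) = em K f + em K g :=
  UniformSpace.Completion.coe_add _ _

theorem em_smul (K : Ker Λ) (c : ℝ) (f : Λ →₀ ℝ) : em K (c • f) = c • em K f := by
  have h1 : ∀ g : Pre K, UniformSpace.Completion.toComplL (𝕜 := ℝ) g = (g : Hil K) := fun g => rfl
  have h2 := map_smul (UniformSpace.Completion.toComplL (𝕜 := ℝ) (E := Pre K)) c (toP K f)
  rw [h1, h1] at h2
  exact h2

/-- the vectors -/
noncomputable def xi (K : Ker Λ) (x : Λ) : Hil K := em K (Finsupp.single x 1)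

theorem inner_em (K : Ker Λ) (f g : Λ →₀ ℝ) : inner ℝ (em K f) (em K g) = ip K f g := by
  unfold em
  rw [UniformSpace.Completion.inner_coe, inner_pre]
  rfl

theorem inner_xi (K : Ker Λ) (x y : Λ) : inner ℝ (xi K x) (xi K y) = K.k x y := by
  unfold xi
  rw [inner_em]
  exact ip_single K x y

theorem em_ind (K : Ker Λ) {p : Hil K → Prop} (v : Hil K) (hp : IsClosed {a | p a})
    (ih : ∀ f : Λ →₀ ℝ, p (em K f)) : p v :=
  UniformSpace.Completion.induction_on v hp ih

theorem total (K : Ker Λ) (v : Hil K) (hv : ∀ x, inner ℝ v (xi K x) = 0) : v = 0 := by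
  have h1 : ∀ f : Λ →₀ ℝ, inner ℝ v (em K f) = 0 := by
    intro f
    induction f using Finsupp.induction_linear with
    | zero => rw [em_zero, inner_zero_right]
    | add f g hf hg => rw [em_add, inner_add_right, hf, hg, add_zero]
    | single x a =>
      have h2 : (Finsupp.single x a : Λ →₀ ℝ) = a • Finsupp.single x 1 := by
        rw [Finsupp.smul_single, smul_eq_mul, mul_one]
      rw [h2, em_smul, inner_smul_right]
      have := hv x
      unfold xi at this
      rw [this, mul_zero]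
  have h3 : ∀ w : Hil K, inner ℝ v w = 0 := fun w =>
    em_ind K (p := fun w => inner ℝ v w = 0) w (isClosed_eq (by fun_prop) continuous_const) h1
  exact inner_self_eq_zero.mp (h3 v)

theorem nrm_em (K : Ker Λ) (f : Λ →₀ ℝ) : ‖em K f‖ = ‖toP K f‖ :=
  UniformSpace.Completion.norm_coe _

theorem nrm_sq (K : Ker Λ) (f : Λ →₀ ℝ) : ‖toP K f‖ ^ 2 = ip K f f := by
  rw [← real_inner_self_eq_norm_sq, inner_pre]
  rfl

theorem nrm_map (K : Ker Λ) (σ : Λ → Λ) (hσ : ∀ x y, K.k (σ x) (σ y) = K.k x y)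
    (f : Λ →₀ ℝ) : ‖toP K (f.mapDomain σ)‖ = ‖toP K f‖ := by
  have h1 : ‖toP K (f.mapDomain σ)‖ ^ 2 = ‖toP K f‖ ^ 2 := by
    rw [nrm_sq, nrm_sq, ip_map K σ hσ]
  exact (sq_eq_sq₀ (norm_nonneg _) (norm_nonneg _)).mp h1

/-- the action on the pre-Hilbert space -/
noncomputable def actP (K : Ker Λ) (σ : Λ → Λ) (hσ : ∀ x y, K.k (σ x) (σ y) = K.k x y) :
    Pre K →L[ℝ] Pre K :=
  LinearMap.mkContinuous
    { toFun := fun f => toP K (Finsupp.mapDomain σ (ofP f))
      map_add' := fun f g => Finsupp.mapDomain_add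
      map_smul' := fun c f => Finsupp.mapDomain_smul c (ofP f) } 1 (by
    intro f
    rw [one_mul]
    exact (nrm_map K σ hσ (ofP f)).le)

/-- the action on the Hilbert space -/
noncomputable def actH (K : Ker Λ) (σ : Λ → Λ) (hσ : ∀ x y, K.k (σ x) (σ y) = K.k x y) :
    Hil K →L[ℝ] Hil K := (actP K σ hσ).completion

theorem actH_em (K : Ker Λ) (σ : Λ → Λ) (hσ : ∀ x y, K.k (σ x) (σ y) = K.k x y) (f : Λ →₀ ℝ) :
    actH K σ hσ (em K f) = em K (f.mapDomain σ) :=
  ContinuousLinearMap.completion_apply_coe _ _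

theorem actH_norm (K : Ker Λ) (σ : Λ → Λ) (hσ : ∀ x y, K.k (σ x) (σ y) = K.k x y) (v : Hil K) :
    ‖actH K σ hσ v‖ = ‖v‖ := by
  refine em_ind K (p := fun v => ‖actH K σ hσ v‖ = ‖v‖) v
    (isClosed_eq (by fun_prop) (by fun_prop)) fun f => ?_
  rw [actH_em, nrm_em, nrm_em, nrm_map K σ hσ]

theorem actH_xi (K : Ker Λ) (σ : Λ → Λ) (hσ : ∀ x y, K.k (σ x) (σ y) = K.k x y) (x : Λ) :
    actH K σ hσ (xi K x) = xi K (σ x) := by
  unfold xi
  rw [actH_em, Finsupp.mapDomain_single]

theorem actH_comp (K : Ker Λ) (σ τ ρ : Λ → Λ) (hσ : ∀ x y, K.k (σ x) (σ y) = K.k x y)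
    (hτ : ∀ x y, K.k (τ x) (τ y) = K.k x y) (hρ : ∀ x y, K.k (ρ x) (ρ y) = K.k x y)
    (hc : ∀ x, σ (τ x) = ρ x) (v : Hil K) :
    actH K σ hσ (actH K τ hτ v) = actH K ρ hρ v := by
  refine em_ind K (p := fun v => actH K σ hσ (actH K τ hτ v) = actH K ρ hρ v) v
    (isClosed_eq (by fun_prop) (by fun_prop)) fun f => ?_
  rw [actH_em, actH_em, actH_em, ← Finsupp.mapDomain_comp]
  have : σ ∘ τ = ρ := funext hc
  rw [this]

theorem actH_id (K : Ker Λ) (σ : Λ → Λ) (hσ : ∀ x y, K.k (σ x) (σ y) = K.k x y)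
    (hc : ∀ x, σ x = x) (v : Hil K) : actH K σ hσ v = v := by
  refine em_ind K (p := fun v => actH K σ hσ v = v) v
    (isClosed_eq (by fun_prop) (by fun_prop)) fun f => ?_
  have : σ = id := funext hc
  rw [actH_em, this, Finsupp.mapDomain_id]

theorem gns : GnsStmt := by
  intro G _ Λ _ k hs hinv hpos
  let K : Ker Λ := ⟨k, hs, hpos⟩
  have hk : ∀ g : G, ∀ x y, K.k ((fun z => g • z) x) ((fun z => g • z) y) = K.k x y :=
    fun g x y => hinv g x y
  refine ⟨Hil K, inferInstance, inferInstance, inferInstance, xi K,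
    { toFun := fun g =>
        { toLinearEquiv := LinearEquiv.ofLinearMap (actH K (fun z => g • z) (hk g) : Hil K →ₗ[ℝ] Hil K)
            (actH K (fun z => g⁻¹ • z) (hk g⁻¹) : Hil K →ₗ[ℝ] Hil K) ?_ ?_
          norm_map' := fun v => actH_norm K _ _ v }
      map_one' := ?_
      map_mul' := ?_ }, inner_xi K, ?_, total K⟩
  · ext v
    show actH K (fun z => g • z) (hk g) (actH K (fun z => g⁻¹ • z) (hk g⁻¹) v) = v
    rw [actH_comp K _ _ (fun z => z) (hk g) (hk g⁻¹) (fun _ _ => rfl)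
      (fun x => smul_inv_smul g x), actH_id K _ _ (fun _ => rfl)]
  · ext v
    show actH K (fun z => g⁻¹ • z) (hk g⁻¹) (actH K (fun z => g • z) (hk g) v) = v
    rw [actH_comp K _ _ (fun z => z) (hk g⁻¹) (hk g) (fun _ _ => rfl)
      (fun x => inv_smul_smul g x), actH_id K _ _ (fun _ => rfl)]
  · ext v
    show actH K (fun z => (1 : G) • z) (hk 1) v = v
    exact actH_id K _ _ (fun x => one_smul G x) v
  · intro g g'
    ext v
    show actH K (fun z => (g * g') • z) (hk (g * g')) v =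
      actH K (fun z => g • z) (hk g) (actH K (fun z => g' • z) (hk g') v)
    exact (actH_comp K _ _ _ (hk g) (hk g') (hk (g * g')) (fun x => (mul_smul g g' x).symm) v).symm
  · intro g x
    exact actH_xi K _ _ x

end Pool.Agent.FGT.H28
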