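import Pool.Agent.FGT.Stmts

/-!
Second half of the row TBD of the squad FGT (helper28): a ball of positive mass implies that the
orbit is totally bounded.
-/

namespace Pool.Agent.FGT.H28

open Filter Topology Pool.Agent.FGT

universe u

theorem tbdB (hkra : KraStmt.{u}) (hpsd : PsdStmt.{u}) (L : Type u) [Group L]
    (α : L →* Equiv.Perm ℤ) (hα : BDp α) (I : (ℤ → ℝ) → ℝ) (hI : IsMean I) (z : ℤ) (ε : ℝ)
    (hε : 0 < ε) (x₀ : ℤ) (hx₀ : ∃ g : L, α g z = x₀)
    (hb : 0 < ms I {x | (∃ g : L, α g z = x) ∧ DD α I z - kk α I x₀ x ≤ ε / 8}) :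
    ∃ F : Finset ℤ, (∀ f ∈ F, ∃ g : L, α g z = f) ∧
      ∀ g : L, ∃ f ∈ F, DD α I z - kk α I (α g z) f < ε := by
  classical
  obtain ⟨k1, k2, k3, k4, -⟩ := hkra L α hα I hI
  set B : ℤ → Set ℤ := fun x => {w | (∃ g : L, α g z = w) ∧ DD α I z - kk α I x w ≤ ε / 8}
    with hB
  set β : ℝ := ms I (B x₀) with hβ
  have hβpos : 0 < β := hb
  -- invariance of the mass
  have hmass : ∀ x, (∃ g : L, α g z = x) → ms I (B x) = β := by
    intro x hx
    obtain ⟨g₀, rfl⟩ := hx
    obtain ⟨g₁, rfl⟩ := hx₀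
    have himg : B (α g₀ z) = (α (g₀ * g₁⁻¹)) '' (B (α g₁ z)) := by
      have key : ∀ w, α (g₀ * g₁⁻¹) w ∈ B (α g₀ z) ↔ w ∈ B (α g₁ z) := by
        intro w
        have e1 : α g₀ z = α (g₀ * g₁⁻¹) (α g₁ z) := by
          rw [← Equiv.Perm.mul_apply, ← map_mul, inv_mul_cancel_right]
        have e2 : kk α I (α g₀ z) (α (g₀ * g₁⁻¹) w) = kk α I (α g₁ z) w := by
          rw [e1]
          exact k2 _ _ _
        constructor
        · rintro ⟨⟨g, hg⟩, h2⟩
          refine ⟨⟨(g₀ * g₁⁻¹)⁻¹ * g, ?_⟩, ?_⟩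
          · rw [map_mul, Equiv.Perm.mul_apply, hg, ← Equiv.Perm.mul_apply, ← map_mul,
              inv_mul_cancel, map_one, Equiv.Perm.one_apply]
          · rwa [e2] at h2
        · rintro ⟨⟨g, hg⟩, h2⟩
          refine ⟨⟨g₀ * g₁⁻¹ * g, ?_⟩, ?_⟩
          · rw [map_mul, Equiv.Perm.mul_apply, hg]
          · rwa [e2]
      ext w
      constructor
      · intro hw
        refine ⟨(α (g₀ * g₁⁻¹)).symm w, ?_, Equiv.apply_symm_apply _ _⟩
        rw [← key, Equiv.apply_symm_apply]
        exact hw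
      · rintro ⟨w', hw', rfl⟩
        exact (key w').mpr hw'
    obtain ⟨R, hR⟩ := hα (g₀ * g₁⁻¹)
    rw [himg, hI.ms_perm _ R hR]
  -- the good sets
  let Good : Finset ℤ → Prop := fun S => (∀ f ∈ S, ∃ g : L, α g z = f) ∧
    ∀ i ∈ S, ∀ j ∈ S, i ≠ j → Disjoint (B i) (B j)
  have hcard : ∀ S, Good S → S.card ≤ ⌊1 / β⌋₊ := by
    intro S hS
    have h1 := hI.card_le S B hS.2 β fun i hi => (hmass i (hS.1 i hi)).ge
    apply Nat.le_floor
    rw [le_div_iff₀ hβpos]
    exact h1
  -- a good set of maximal cardinality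
  obtain ⟨S, hS, hmax⟩ : ∃ S, Good S ∧ ∀ S', Good S' → S'.card ≤ S.card := by
    have hne : ∃ N, ∃ S, Good S ∧ S.card = N := ⟨0, ∅, ⟨by simp, by simp⟩, rfl⟩
    have hbdd : ∀ N, (∃ S, Good S ∧ S.card = N) → N ≤ ⌊1 / β⌋₊ := by
      rintro N ⟨S, hS, rfl⟩
      exact hcard S hS
    have hN := Nat.findGreatest_spec (P := fun N => ∃ S, Good S ∧ S.card = N)
      (hbdd _ hne.choose_spec) hne.choose_spec
    obtain ⟨S, hS, hSc⟩ := hN
    refine ⟨S, hS, fun S' hS' => ?_⟩
    rw [hSc]
    exact Nat.le_findGreatest (hbdd _ ⟨S', hS', rfl⟩) ⟨S', hS', rfl⟩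
  refine ⟨S, hS.1, fun g => ?_⟩
  set x : ℤ := α g z with hx
  have hDx : DD α I x = DD α I z := k1 g z
  by_cases hxS : x ∈ S
  · refine ⟨x, hxS, ?_⟩
    rw [k4, hDx, sub_self]
    exact hε
  · -- some ball meets the ball of `x`
    have hmeet : ∃ f ∈ S, ¬ Disjoint (B f) (B x) := by
      by_contra hno
      push Not at hno
      have hgood : Good (insert x S) := by
        refine ⟨?_, ?_⟩
        · intro f hf
          rcases Finset.mem_insert.mp hf with rfl | hf
          · exact ⟨g, rfl⟩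
          · exact hS.1 f hf
        · intro i hi j hj hij
          rcases Finset.mem_insert.mp hi with rfl | hi
          · rcases Finset.mem_insert.mp hj with rfl | hj
            · exact absurd rfl hij
            · exact (hno j hj).symm
          · rcases Finset.mem_insert.mp hj with rfl | hj
            · exact hno i hi
            · exact hS.2 i hi j hj hij
      have := hmax _ hgood
      rw [Finset.card_insert_of_notMem hxS] at this
      omega
    obtain ⟨f, hfS, hnd⟩ := hmeet
    rw [Set.not_disjoint_iff] at hnd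
    obtain ⟨w, ⟨⟨gw, hgw⟩, hw1⟩, -, hw2⟩ := hnd
    refine ⟨f, hfS, ?_⟩
    obtain ⟨gf, hgf⟩ := hS.1 f hfS
    have hDw : DD α I w = DD α I z := by rw [← hgw]; exact k1 gw z
    have hDf : DD α I f = DD α I z := by rw [← hgf]; exact k1 gf z
    -- positivity for `x, w, f` with the coefficients `1, -2, 1`
    let s : Finset ℤ := {x, w, f}
    let c : ℤ → ℝ := fun t => (if t = x then 1 else 0) + ((if t = w then -2 else 0) +
      (if t = f then 1 else 0))
    have hsum : ∀ v : ℤ → ℝ, ∑ i ∈ s, c i * v i = v x - 2 * v w + v f := by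
      intro v
      have hxs : x ∈ s := by simp [s]
      have hws : w ∈ s := by simp [s]
      have hfs : f ∈ s := by simp [s]
      have e1 : ∀ (a : ℤ) (r : ℝ), a ∈ s → ∑ i ∈ s, (if i = a then r else 0) * v i = r * v a := by
        intro a r ha
        rw [Finset.sum_eq_single a]
        · rw [if_pos rfl]
        · intro b _ hba
          rw [if_neg hba, zero_mul]
        · intro h
          exact absurd ha h
      have e2 : ∀ i, c i * v i = (if i = x then 1 else 0) * v i +
          ((if i = w then -2 else 0) * v i + (if i = f then 1 else 0) * v i) := by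
        intro i
        show ((if i = x then (1 : ℝ) else 0) + ((if i = w then -2 else 0) +
          (if i = f then 1 else 0))) * v i = _
        ring
      rw [Finset.sum_congr rfl fun i _ => e2 i, Finset.sum_add_distrib, Finset.sum_add_distrib,
        e1 x 1 hxs, e1 w (-2) hws, e1 f 1 hfs]
      ring
    have hpos := hpsd L α hα I hI s c
    have hre : ∑ i ∈ s, ∑ j ∈ s, c i * c j * kk α I i j =
        ∑ i ∈ s, c i * (∑ j ∈ s, c j * kk α I i j) := by
      refine Finset.sum_congr rfl fun i _ => ?_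
      rw [Finset.mul_sum]
      refine Finset.sum_congr rfl fun j _ => ?_
      ring
    rw [hre, hsum (fun i => ∑ j ∈ s, c j * kk α I i j), hsum, hsum, hsum] at hpos
    rw [k4, k4, k4, hDx, hDw, hDf, k3 w x, k3 f x, k3 w f] at hpos
    linarith

end Pool.Agent.FGT.H28
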